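import Pool.Agent.DFM.Stmts

/-!
# Squad DFM, row INF: meets in the lattice `L(I,J,w)`
-/

set_option autoImplicit false

namespace Pool.Agent.DFM.H10

theorem inf : InfStmt := by
  classical
  intro I J w x y hx hy
  cases x with
  | low G =>
    cases y with
    | low G' =>
      refine ⟨El.low (G ∪ G'), ?_, ?_, ?_, ?_⟩
      · exact Finset.Nonempty.inl hx
      · exact Finset.subset_union_left
      · exact Finset.subset_union_right
      · rintro (t | _ | t | ⟨i, j, n⟩) ht h1 h2
        · exact Finset.union_subset h1 h2
        · exact h1.elim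
        · exact h1.elim
        · exact h1.elim
    | mid =>
      refine ⟨El.low G, hx, Finset.Subset.refl _, trivial, ?_⟩
      intro t _ h1 _
      exact h1
    | top F =>
      refine ⟨El.low G, hx, Finset.Subset.refl _, trivial, ?_⟩
      intro t _ h1 _
      exact h1
    | ch i j n =>
      refine ⟨El.low (insert i G), ?_, ?_, ?_, ?_⟩
      · exact Finset.insert_nonempty _ _
      · exact Finset.subset_insert _ _
      · exact Finset.mem_insert_self _ _
      · rintro (t | _ | t | ⟨i', j', n'⟩) ht h1 h2
        · exact Finset.insert_subset h2 h1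
        · exact h1.elim
        · exact h1.elim
        · exact h1.elim
  | mid =>
    cases y with
    | low G' =>
      refine ⟨El.low G', hy, trivial, Finset.Subset.refl _, ?_⟩
      intro t _ _ h2
      exact h2
    | mid => exact ⟨El.mid, trivial, trivial, trivial, fun t _ h1 _ => h1⟩
    | top F => exact ⟨El.mid, trivial, trivial, trivial, fun t _ h1 _ => h1⟩
    | ch i j n =>
      refine ⟨El.low {i}, ?_, trivial, ?_, ?_⟩
      · exact Finset.singleton_nonempty _
      · exact Finset.mem_singleton_self _
      · rintro (t | _ | t | ⟨i', j', n'⟩) ht h1 h2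
        · exact Finset.singleton_subset_iff.2 h2
        · exact h2.elim
        · exact h1.elim
        · exact h1.elim
  | top F =>
    cases y with
    | low G' =>
      refine ⟨El.low G', hy, trivial, Finset.Subset.refl _, ?_⟩
      intro t _ _ h2
      exact h2
    | mid => exact ⟨El.mid, trivial, trivial, trivial, fun t _ _ h2 => h2⟩
    | top F' =>
      by_cases h : (F ∩ F').Nonempty
      · refine ⟨El.top (F ∩ F'), h, Finset.inter_subset_left, Finset.inter_subset_right, ?_⟩
        rintro (t | _ | t | ⟨i', j', n'⟩) ht h1 h2
        · trivial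
        · trivial
        · exact Finset.subset_inter h1 h2
        · exact Finset.mem_inter.2 ⟨h1, h2⟩
      · refine ⟨El.mid, trivial, trivial, trivial, ?_⟩
        rintro (t | _ | t | ⟨i', j', n'⟩) ht h1 h2
        · trivial
        · trivial
        · exact (h (ht.mono (Finset.subset_inter h1 h2))).elim
        · exact (h ⟨j', Finset.mem_inter.2 ⟨h1, h2⟩⟩).elim
    | ch i j n =>
      by_cases h : j ∈ F
      · refine ⟨El.ch i j n, hy, h, ⟨rfl, rfl, le_refl _⟩, ?_⟩
        intro t _ _ h2
        exact h2
      · refine ⟨El.low {i}, ?_, trivial, ?_, ?_⟩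
        · exact Finset.singleton_nonempty _
        · exact Finset.mem_singleton_self _
        · rintro (t | _ | t | ⟨i', j', n'⟩) ht h1 h2
          · exact Finset.singleton_subset_iff.2 h2
          · exact h2.elim
          · exact h2.elim
          · obtain ⟨_, h4, _⟩ := h2
            exact (h (h4 ▸ h1)).elim
  | ch i j n =>
    cases y with
    | low G' =>
      refine ⟨El.low (insert i G'), ?_, ?_, ?_, ?_⟩
      · exact Finset.insert_nonempty _ _
      · exact Finset.mem_insert_self _ _
      · exact Finset.subset_insert _ _
      · rintro (t | _ | t | ⟨i', j', n'⟩) ht h1 h2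
        · exact Finset.insert_subset h1 h2
        · exact h1.elim
        · exact h1.elim
        · exact h2.elim
    | mid =>
      refine ⟨El.low {i}, ?_, ?_, trivial, ?_⟩
      · exact Finset.singleton_nonempty _
      · exact Finset.mem_singleton_self _
      · rintro (t | _ | t | ⟨i', j', n'⟩) ht h1 h2
        · exact Finset.singleton_subset_iff.2 h1
        · exact h1.elim
        · exact h1.elim
        · exact h2.elim
    | top F =>
      by_cases h : j ∈ F
      · refine ⟨El.ch i j n, hx, ⟨rfl, rfl, le_refl _⟩, h, ?_⟩
        intro t _ h1 _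
        exact h1
      · refine ⟨El.low {i}, ?_, ?_, trivial, ?_⟩
        · exact Finset.singleton_nonempty _
        · exact Finset.mem_singleton_self _
        · rintro (t | _ | t | ⟨i', j', n'⟩) ht h1 h2
          · exact Finset.singleton_subset_iff.2 h1
          · exact h1.elim
          · exact h1.elim
          · obtain ⟨_, h4, _⟩ := h1
            exact (h (h4 ▸ h2)).elim
    | ch i' j' n' =>
      by_cases h : i = i' ∧ j = j'
      · obtain ⟨rfl, rfl⟩ := h
        refine ⟨El.ch i j (min n n'), ?_, ⟨rfl, rfl, min_le_left _ _⟩, ⟨rfl, rfl, min_le_right _ _⟩, ?_⟩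
        · exact lt_of_le_of_lt (min_le_left n n') hx
        · rintro (t | _ | t | ⟨i'', j'', n''⟩) ht h1 h2
          · exact h1
          · exact h1.elim
          · exact h1.elim
          · obtain ⟨h3, h4, h5⟩ := h1
            obtain ⟨_, _, h6⟩ := h2
            exact ⟨h3, h4, le_min h5 h6⟩
      · refine ⟨El.low {i, i'}, ?_, ?_, ?_, ?_⟩
        · exact Finset.insert_nonempty _ _
        · exact Finset.mem_insert_self _ _
        · exact Finset.mem_insert_of_mem (Finset.mem_singleton_self _)
        · rintro (t | _ | t | ⟨i'', j'', n''⟩) ht h1 h2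
          · exact Finset.insert_subset h1 (Finset.singleton_subset_iff.2 h2)
          · exact h1.elim
          · exact h1.elim
          · obtain ⟨h3, h4, _⟩ := h1
            obtain ⟨h5, h6, _⟩ := h2
            exact (h ⟨h3.symm.trans h5, h4.symm.trans h6⟩).elim

end Pool.Agent.DFM.H10
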